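import Pool.Agent.helper23.CS.Spec

set_option autoImplicit false

open Finset Filter Topology MeasureTheory

namespace CS

section
variable {V ι : Type} [Fintype V] [DecidableEq V]

/-- if the character is 1 on the configurations constant on `ω` -/
theorem EDG_one (G : MG V ι) (ω : Finset ι) (χ : (V → Bool) → ℝ) (hχ : Ch χ)
    (h : ∀ σ, Cst G ω σ → χ σ = 1) : KK G ω χ / KN G ω = 1 := by
  rcases KK_char G ω χ hχ with h1 | ⟨⟨σ, h2, h3⟩, _⟩
  · rw [h1.2]
    exact div_self (KN_pos G ω).ne'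
  · rw [h σ h2] at h3
    norm_num at h3

theorem EDG_pt (G : MG V ι) (ω : Finset ι) (a z s t : V) :
    ind (¬ Conn G ω a z) * (ind (Conn G ω a s ∧ Conn G ω t z) + ind (Conn G ω a t ∧ Conn G ω s z)) ≤
      KK G ω (fun σ => CU.sg (σ a) * CU.sg (σ z) * (CU.sg (σ s) * CU.sg (σ t))) / KN G ω -
        ind (Conn G ω a z) * ind (Conn G ω s t) := by
  have hχ : Ch (fun σ : V → Bool => CU.sg (σ a) * CU.sg (σ z) * (CU.sg (σ s) * CU.sg (σ t))) :=
    Ch_mul (Ch_mul (Ch_sg a) (Ch_sg z)) (Ch_mul (Ch_sg s) (Ch_sg t))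
  have h0 : 0 ≤ KK G ω (fun σ => CU.sg (σ a) * CU.sg (σ z) * (CU.sg (σ s) * CU.sg (σ t))) /
      KN G ω := div_nonneg (KK_char_nonneg G ω _ hχ) (KN_pos G ω).le
  by_cases haz : Conn G ω a z
  · rw [ind_false (not_not.2 haz), ind_true haz, zero_mul, one_mul]
    by_cases hst : Conn G ω s t
    · rw [ind_true hst, EDG_one G ω _ hχ]
      · norm_num
      · intro σ hσ
        show CU.sg (σ a) * CU.sg (σ z) * (CU.sg (σ s) * CU.sg (σ t)) = 1
        rw [haz σ hσ, hst σ hσ, sg_sq, sg_sq]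
        norm_num
    · rw [ind_false hst]
      linarith
  · rw [ind_true haz, ind_false haz, zero_mul, one_mul, sub_zero]
    by_cases h1 : Conn G ω a s ∧ Conn G ω t z
    · have h2 : ¬ (Conn G ω a t ∧ Conn G ω s z) := fun h => haz (Conn_trans h1.1 h.2)
      rw [ind_true h1, ind_false h2, EDG_one G ω _ hχ]
      · norm_num
      · intro σ hσ
        show CU.sg (σ a) * CU.sg (σ z) * (CU.sg (σ s) * CU.sg (σ t)) = 1
        rw [h1.1 σ hσ, h1.2 σ hσ]
        linear_combination CU.sg (σ z) * CU.sg (σ z) * sg_sq (σ s) + sg_sq (σ z)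
    · rw [ind_false h1]
      by_cases h2 : Conn G ω a t ∧ Conn G ω s z
      · rw [ind_true h2, EDG_one G ω _ hχ]
        · norm_num
        · intro σ hσ
          show CU.sg (σ a) * CU.sg (σ z) * (CU.sg (σ s) * CU.sg (σ t)) = 1
          rw [h2.1 σ hσ, h2.2 σ hσ]
          linear_combination CU.sg (σ z) * CU.sg (σ z) * sg_sq (σ t) + sg_sq (σ z)
      · rw [ind_false h2]
        linarith

variable [DecidableEq ι]

theorem EDG_wf (G : MG V ι) (b : ℝ) (E ω : Finset ι) (hb : 0 ≤ b) : 0 ≤ wf G b E ω := by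
  unfold wf
  have h1 : Real.exp (-2 * b) ≤ 1 := Real.exp_le_one_iff.2 (by linarith)
  have h2 : 0 ≤ 1 - Real.exp (-2 * b) := by linarith
  exact mul_nonneg (mul_nonneg (pow_nonneg h2 _) (pow_nonneg (Real.exp_pos _).le _)) (KN_pos G ω).le

theorem EDG_mono (G : MG V ι) (b : ℝ) (E : Finset ι) (hb : 0 ≤ b) (F H : Finset ι → ℝ)
    (h : ∀ ω, F ω ≤ H ω) : FS G b E F ≤ FS G b E H :=
  sum_le_sum fun ω _ => mul_le_mul_of_nonneg_left (h ω) (EDG_wf G b E ω hb)

theorem EDG_sub (G : MG V ι) (b : ℝ) (E : Finset ι) (F H : Finset ι → ℝ) :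
    FS G b E (fun ω => F ω - H ω) = FS G b E F - FS G b E H := by
  unfold FS
  rw [← sum_sub_distrib]
  exact sum_congr rfl fun ω _ => by ring

end

theorem EDG (hRCO : RCO_stmt) (hRFKG : RFKG_stmt) : EDG_stmt := by
  intro V ι _ _ _ _ G b E hb a z s t
  obtain ⟨c1, c2, c3, _⟩ := hRCO V ι G b E hb
  rw [c2, c3, c3]
  have h1 := hRFKG V ι G b E hb (fun ω => ind (Conn G ω a z)) (fun ω => ind (Conn G ω s t))
    (fun ω ω' h => ind_mono (Conn_mono h)) (fun ω ω' h => ind_mono (Conn_mono h))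
    (fun ω => ind_nonneg _) (fun ω => ind_nonneg _)
  have h2 := EDG_mono G b E hb _ _ (fun ω => EDG_pt G ω a z s t)
  rw [EDG_sub] at h2
  have h3 : FS G b E (fun ω => ind (Conn G ω a z)) / FS G b E (fun _ => 1) *
      (FS G b E (fun ω => ind (Conn G ω s t)) / FS G b E (fun _ => 1)) ≤
      FS G b E (fun ω => ind (Conn G ω a z) * ind (Conn G ω s t)) / FS G b E (fun _ => 1) := by
    rw [div_mul_div_comm, div_le_div_iff₀ (mul_pos c1 c1) c1]
    nlinarith [mul_le_mul_of_nonneg_right h1 c1.le]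
  have h4 := div_le_div_of_nonneg_right h2 c1.le
  rw [sub_div] at h4
  linarith

end CS
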